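import Pool.Agent.ETCP.Basic

/-!
# One-element counting theorems (helper24)

THEOREM ALPHA (helper41, helper48), THEOREM BETA (Theorem I for every subgroup `K` of `Q_y`)
and its corollary T (LAW A of helper25), written without any group structure on the set of
symbols: a subgroup of `Q_d` is a subgroup of `V` containing `V_d`.
-/

set_option autoImplicit false
set_option linter.unusedSectionVars false
set_option linter.unusedSimpArgs false

namespace Pool.Agent.ETAL

open Pool.Agent.Helper58.PLine (QData)
open Pool.Agent.ETCP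
open ETC (ind ind_true ind_false ind_and ind_congr ind_nonneg ind_le sum_ind_shift add_common)

variable {V Q : Type} [AddCommGroup V] [Module (ZMod 2) V] {D : QData V Q}

theorem s2 (x y : V) : x + y + y = x := by rw [add_assoc, ZModModule.add_self, add_zero]

theorem s3 (x y : V) : x + (x + y) = y := by rw [← add_assoc, ZModModule.add_self, zero_add]

/-- a common slot -/
theorem lk {g x d w : V} (h : D.q g x = D.q d w) :
    ∃ u, C D g (x + u) ∧ C D d (w + u) ∧ C D (g + d) u := link h

theorem q_symm (x y : V) : D.q x y = D.q y x := D.symm x y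

theorem C_iff {x y : V} : C D x y ↔ D.q x y = D.z := Iff.rfl

theorem q0 (x : V) : D.q x 0 = D.z := D.q_zero x

theorem q0' (x : V) : D.q 0 x = D.z := by rw [D.symm]; exact q0 x

/-- moving inside a coset of `V_g` -/
theorem mv {g x x' : V} (h : C D g (x + x')) : D.q g x = D.q g x' := q_eq h

/-- additivity along common values: `g x = d w`, `g' x = d w'` -/
theorem addl {g g' x d w w' : V} (h : D.q g x = D.q d w) (h' : D.q g' x = D.q d w') :
    D.q (g + g') x = D.q d (w + w') := by
  rw [q_symm]
  exact add_common (by rw [q_symm]; exact h) (by rw [q_symm]; exact h')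

theorem addr {g x x' d w w' : V} (h : D.q g x = D.q d w) (h' : D.q g x' = D.q d w') :
    D.q g (x + x') = D.q d (w + w') := add_common h h'

/-- THE COUNT.  `g` runs through the subgroup `G`, `n` through the coset `n0 + H`. -/
theorem count [Finite V] {s m0 n0 : V} {J G H : AddSubgroup V}
    (hJ : ∀ v, C D s v → v ∈ J) (hm : m0 ∉ J)
    (ha : ∀ n, n + n0 ∈ H → ∃ g ∈ G, ∃ v, v + m0 ∈ J ∧ D.q g n = D.q s v)
    (hb : ∀ g ∈ G, ∀ n, n + n0 ∈ H → ∀ v, v + m0 ∈ J → D.q g n = D.q s v →
      ∃ n1, n1 + n0 ∈ H ∧ C D g n1) : False := by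
  classical
  have := Fintype.ofFinite V
  set P1 : V → V → Prop := fun g n => g ∈ G ∧ n + n0 ∈ H ∧ ∃ v, v ∈ J ∧ D.q g n = D.q s v
    with hP1
  set P2 : V → V → Prop := fun g n => g ∈ G ∧ n + n0 ∈ H ∧ ∃ v, v + m0 ∈ J ∧ D.q g n = D.q s v
    with hP2
  -- for fixed n both counts agree
  have e1 : ∀ n, ∑ g : V, ind (P1 g n) = ∑ g : V, ind (P2 g n) := by
    intro n
    by_cases hn : n + n0 ∈ H
    · obtain ⟨g0, hg0, v0, hv0, e0⟩ := ha n hn
      apply sum_ind_shift _ _ g0
      intro g
      constructor
      · rintro ⟨h1, -, v, hv, e⟩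
        refine ⟨?_, hn, v + v0, ?_, ?_⟩
        · have := G.add_mem h1 hg0
          rwa [s2] at this
        · rw [add_assoc]
          exact J.add_mem hv hv0
        · have := addl e e0
          rwa [s2] at this
      · rintro ⟨h1, -, v, hv, e⟩
        refine ⟨G.add_mem h1 hg0, hn, v + v0, ?_, addl e e0⟩
        have := J.add_mem hv hv0
        have h3 : v + m0 + (v0 + m0) = v + v0 := by
          have : v + m0 + (v0 + m0) = v + v0 + (m0 + m0) := by abel
          rw [this, ZModModule.add_self, add_zero]
        rwa [h3] at this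
    · refine Finset.sum_congr rfl fun g _ => ?_
      rw [ind_false, ind_false]
      · exact fun h => hn h.2.1
      · exact fun h => hn h.2.1
  -- for fixed g
  have e2 : ∀ g, ∑ n : V, ind (P2 g n) ≤ ∑ n : V, ind (P1 g n) := by
    intro g
    by_cases hex : ∃ n, P2 g n
    · obtain ⟨n, hg, hn, v, hv, e⟩ := hex
      obtain ⟨n1, hn1, hc⟩ := hb g hg n hn v hv e
      apply le_of_eq
      symm
      apply sum_ind_shift _ _ (n + n1)
      intro w
      have key : D.q g (n + n1) = D.q g n := mv (by
        have : n + n1 + n = n1 := by rw [add_comm n n1, s2]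
        rwa [this])
      constructor
      · rintro ⟨-, h1, v1, hv1, e1⟩
        refine ⟨hg, ?_, v1 + v, ?_, ?_⟩
        · have h2 := H.add_mem h1 (H.add_mem hn hn1)
          have : w + (n + n1) + n0 + (n + n0 + (n1 + n0)) = w + n0 := by
            have : w + (n + n1) + n0 + (n + n0 + (n1 + n0))
                = w + n0 + (n + n) + (n1 + n1) + (n0 + n0) := by abel
            rw [this, ZModModule.add_self, ZModModule.add_self, ZModModule.add_self]
            simp
          rwa [this] at h2
        · rw [add_assoc]; exact J.add_mem hv1 hv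
        · have := addr e1 (key.trans e)
          rwa [s2] at this
      · rintro ⟨-, h1, v1, hv1, e1⟩
        refine ⟨hg, ?_, v1 + v, ?_, addr e1 (key.trans e)⟩
        · have h2 := H.add_mem h1 (H.add_mem hn hn1)
          have : w + n0 + (n + n0 + (n1 + n0)) = w + (n + n1) + n0 := by
            have : w + n0 + (n + n0 + (n1 + n0)) = w + (n + n1) + n0 + (n0 + n0) := by abel
            rw [this, ZModModule.add_self, add_zero]
          rwa [this] at h2
        · have := J.add_mem hv1 hv
          have h3 : v1 + m0 + (v + m0) = v1 + v := by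
            have : v1 + m0 + (v + m0) = v1 + v + (m0 + m0) := by abel
            rw [this, ZModModule.add_self, add_zero]
          rwa [h3] at this
    · have : ∀ n, ind (P2 g n) = 0 := fun n => ind_false fun h => hex ⟨n, h⟩
      rw [Finset.sum_congr rfl fun n _ => this n, Finset.sum_const_zero]
      exact Finset.sum_nonneg fun n _ => ind_nonneg _
  have e3 : ∑ n : V, ind (P2 0 n) < ∑ n : V, ind (P1 0 n) := by
    have h0 : ∀ n, ind (P2 0 n) = 0 := by
      intro n
      apply ind_false
      rintro ⟨-, -, v, hv, e⟩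
      rw [q0'] at e
      have hv' : v ∈ J := hJ v e.symm
      apply hm
      have := J.add_mem hv' hv
      rwa [s3] at this
    rw [Finset.sum_congr rfl fun n _ => h0 n, Finset.sum_const_zero]
    have h1 : ind (P1 0 n0) = 1 := by
      apply ind_true
      refine ⟨G.zero_mem, ?_, 0, J.zero_mem, ?_⟩
      · rw [ZModModule.add_self]; exact H.zero_mem
      · rw [q0', q0]
    calc (0 : ℤ) < 1 := by norm_num
      _ = ind (P1 0 n0) := h1.symm
      _ ≤ _ := Finset.single_le_sum (f := fun n => ind (P1 0 n))
          (fun n _ => ind_nonneg _) (Finset.mem_univ n0)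
  have e4 : ∑ g : V, ∑ n : V, ind (P2 g n) < ∑ g : V, ∑ n : V, ind (P1 g n) :=
    Finset.sum_lt_sum (fun g _ => e2 g) ⟨0, Finset.mem_univ _, e3⟩
  have e5 : ∑ g : V, ∑ n : V, ind (P2 g n) = ∑ g : V, ∑ n : V, ind (P1 g n) := by
    rw [Finset.sum_comm, Finset.sum_comm (f := fun g n => ind (P1 g n))]
    exact Finset.sum_congr rfl fun n _ => (e1 n).symm
  exact absurd e5 (ne_of_lt e4)

/-- **THEOREM ALPHA** (helper41). -/
theorem alpha [Finite V] {d e k : V} {J A : AddSubgroup V}
    (hJ : ∀ v, C D d v → v ∈ J) (hJA : J ≤ A) (heA : e ∈ A) (heJ : e ∉ J) :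
    ∃ x, x + k ∈ A ∧ ∀ g v, v + e ∈ J → D.q g x ≠ D.q d v := by
  by_contra hcon
  push Not at hcon
  refine count (D := D) (s := d) (m0 := e) (n0 := k) (J := J) (G := ⊤) (H := A) hJ heJ ?_ ?_
  · intro n hn
    obtain ⟨g, v, hv, e1⟩ := hcon n hn
    exact ⟨g, AddSubgroup.mem_top g, v, hv, e1⟩
  · intro g _ n hn v hv e1
    obtain ⟨u, h1, h2, -⟩ := lk e1
    refine ⟨n + u, ?_, h1⟩
    have hu : u ∈ A := by
      have a1 : v + u ∈ A := hJA (hJ _ h2)
      have a2 : v + e ∈ A := hJA hv
      have a3 := A.add_mem (A.add_mem a1 a2) heA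
      have : v + u + (v + e) + e = u := by
        have : v + u + (v + e) + e = u + (v + v) + (e + e) := by abel
        rw [this, ZModModule.add_self, ZModModule.add_self]
        simp
      rwa [this] at a3
    have := A.add_mem hn hu
    have h3 : n + k + u = n + u + k := by abel
    rwa [h3] at this

end Pool.Agent.ETAL
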