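import Pool.Agent.ETAL.ThmL
import Pool.Agent.ETPN.HP2
import Pool.Agent.ETPT.FL

/-!
# Assembly (helper66): purity at `y` and PX at `y` are impossible (helper24)

`PurAt`: `Q_v ∩ Q_y = Q_{v+y} ∩ Q_y` for all `v` with `y v ≠ 0`.
-/

set_option autoImplicit false
set_option linter.unusedSectionVars false
set_option linter.unusedSimpArgs false

namespace Pool.Agent.ETAL

open Pool.Agent.Helper58.PLine (QData)
open Pool.Agent.ETCP
open Pool.Agent.ETPF
open Pool.Agent.ETPT
open ETC (ind ind_true ind_false ind_and ind_congr ind_nonneg ind_le sum_ind_shift add_common)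

variable {V Q : Type} [AddCommGroup V] [Module (ZMod 2) V] {D : QData V Q}

/-- `v` is balanced at `y` with kind `H` -/
def BB (D : QData V Q) (y v : V) (H : AddSubgroup V) : Prop := Bal D y v H ∧ Bal D y (v + y) H

/-- purity at `y` -/
def PurAt (D : QData V Q) (y : V) : Prop := ∀ v, ¬ C D y v → ∃ H, BB D y v H

/-- equal values at `y` have equal kinds -/
def PXAt (D : QData V Q) (y : V) : Prop := ∀ v v' H H', ¬ C D y v → D.q y v = D.q y v' →
  BB D y v H → BB D y v' H' → H = H'

namespace BB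

variable {y v : V} {H : AddSubgroup V}

theorem swap (B : BB D y v H) : BB D y (v + y) H := ⟨B.2, by rw [s2]; exact B.1⟩

/-- `V_y ⊆ H` -/
theorem annY (B : BB D y v H) {x : V} (h : C D y x) : x ∈ H := B.1.Vy h

/-- `V_v ⊆ H` -/
theorem annV (B : BB D y v H) {x : V} (h : C D v x) : x ∈ H := by
  apply B.2.sup x x
  apply q_eq'
  have : y + (v + y) = v := by rw [add_comm v y, s3]
  rwa [this]

theorem selfV (he : D.e = 0) (B : BB D y v H) : v ∈ H := B.annV (C.self he v)

theorem selfY (he : D.e = 0) (B : BB D y v H) : y ∈ H := B.annY (C.self he y)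

theorem mem_iff (B : BB D y v H) {x : V} : x ∈ H ↔ Sg D (D.q y x) v :=
  ⟨fun h => by
    obtain ⟨w, hw⟩ := B.1.sub x h
    exact ⟨w, hw.symm⟩, fun ⟨w, hw⟩ => B.1.sup x w hw.symm⟩

end BB

/-- the claim of helper66: under `PUR` and `PX` the elements of `D(c)` outside `V_y` are slots -/
theorem slot_of_pur {y : V} (he : D.e = 0) (hp : PurAt D y) (hx : PXAt D y) {c : Q}
    (cne : c ≠ D.z) (hc : Sg D c y) {v : V}
    (hv : v ∈ Submodule.span (ZMod 2) {s | Sg D c s}) (hyv : ¬ C D y v) : Sg D c v := by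
  obtain ⟨s, hs, hsv⟩ := cm_span he ⟨y, hc⟩ hv
  obtain ⟨m, m1, m2⟩ := hs.common hc
  have h1 : Sg D c (m + v) := Sg.right (qa m1 hsv)
  obtain ⟨n, n1, n2⟩ := h1.common hc
  -- `n ∈ Y_c` kills `m + v + y`
  have hn : ¬ C D y n := fun h => cne (n2.symm.trans h)
  obtain ⟨H, B⟩ := hp n hn
  have k1 : m + v + y ∈ H := by
    apply B.annV
    have : D.q (m + v) n = D.q y n := n1.trans n2.symm
    exact (q_eq'_iff.1 this).symm
  have k2 : m ∈ H := by
    have : C D y (m + n) := q_eq_iff.1 (m2.trans n2.symm)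
    exact memc (B.selfV he) (B.annY this)
  have k3 : v ∈ H := by
    have h2 : m + v ∈ H := memc (B.selfY he) k1
    exact memc k2 (by rwa [add_comm])
  obtain ⟨w, e1⟩ := B.1.sub v k3
  obtain ⟨u, c1, c2, c3⟩ := lk e1
  have e2 : D.q y u = D.q y v := mv (by rwa [add_comm])
  have hu : ¬ C D y u := fun h => hyv (by
    have : D.q y v = D.z := e2.symm.trans h
    exact this)
  obtain ⟨H', B'⟩ := hp u hu
  obtain ⟨H'', B''⟩ := hp v hyv
  have k4 : n ∈ H' := by
    have h3 : y + n ∈ H' := B'.annV c3.symm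
    exact memc (B'.selfY he) (by rwa [add_comm])
  rw [hx u v H' H'' hu e2 B' B''] at k4
  have := B''.mem_iff.1 k4
  rwa [n2] at this

/-- **PUR + PX at one `y` are impossible** -/
theorem false_of_pur_px [Finite V] {y x : V} (he : D.e = 0)
    (k4 : ∀ z, z ≠ 0 → ETCD2.K4At D z) (hxy : ¬ C D y x) (hp : PurAt D y) (hx : PXAt D y) :
    False := by
  have hc : Sg D (D.q y x) y := ⟨x, rfl⟩
  have hx' : x ∉ ann D y := hxy
  obtain ⟨f, f1, f0⟩ := exists_cut hx'
  refine ETPN.false_of_HP he (c := D.q y x) hxy k4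
    (E := Submodule.span (ZMod 2) {s | Sg D (D.q y x) s}) (l := f)
    (fun s hs => Submodule.subset_span hs) ?_ ⟨x, Submodule.subset_span (Sg.right rfl), f1⟩
  intro v hv hfv
  refine slot_of_pur he hp hx hxy hc hv fun h => ?_
  rw [f0 v h] at hfv
  exact absurd hfv (by decide)

end Pool.Agent.ETAL
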