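import Pool.Agent.ETAL.Alpha

/-!
# THEOREM BETA (Theorem I for every subgroup `K` of `Q_y`), COR T = LAW A (helper24)

`Bal D y s H`: `Q_s ∩ Q_y = y H` (`H` a subgroup of `V` containing `V_y`).
-/

set_option autoImplicit false
set_option linter.unusedSectionVars false
set_option linter.unusedSimpArgs false

namespace Pool.Agent.ETAL

open Pool.Agent.Helper58.PLine (QData)
open Pool.Agent.ETCP
open ETC (ind ind_true ind_false ind_and ind_congr ind_nonneg ind_le sum_ind_shift add_common)

variable {V Q : Type} [AddCommGroup V] [Module (ZMod 2) V] {D : QData V Q}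

/-- `y H < Q_d` -/
def Full (D : QData V Q) (y d : V) (H : AddSubgroup V) : Prop :=
  ∀ v ∈ H, ∃ w, D.q y v = D.q d w

/-- `Q_s ∩ Q_y = y H` -/
structure Bal (D : QData V Q) (y s : V) (H : AddSubgroup V) : Prop where
  sub : Full D y s H
  sup : ∀ v w, D.q y v = D.q s w → v ∈ H

/-- the subgroup `{v : g v ∈ y H}` -/
def pull (D : QData V Q) (g y : V) (H : AddSubgroup V) : AddSubgroup V where
  carrier := {v | ∃ h ∈ H, D.q g v = D.q y h}
  zero_mem' := ⟨0, H.zero_mem, by rw [q0, q0]⟩
  add_mem' := by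
    rintro a b ⟨h, hh, e⟩ ⟨h', hh', e'⟩
    exact ⟨h + h', H.add_mem hh hh', addr e e'⟩
  neg_mem' := by
    rintro a ⟨h, hh, e⟩
    refine ⟨h, hh, ?_⟩
    have : -a = a := neg_eq_of_add_eq_zero_left (ZModModule.add_self a)
    rwa [this]

theorem mem_pull {g y v : V} {H : AddSubgroup V} :
    v ∈ pull D g y H ↔ ∃ h ∈ H, D.q g v = D.q y h := Iff.rfl

/-- the subgroup generated by `J` and `e` -/
def adj (J : AddSubgroup V) (e : V) : AddSubgroup V where
  carrier := {v | v ∈ J ∨ v + e ∈ J}
  zero_mem' := Or.inl J.zero_mem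
  add_mem' := by
    rintro a b (ha | ha) (hb | hb)
    · exact Or.inl (J.add_mem ha hb)
    · right
      show a + b + e ∈ J
      rw [add_assoc]; exact J.add_mem ha hb
    · right
      show a + b + e ∈ J
      have := J.add_mem ha hb
      rwa [add_right_comm] at this
    · left
      have := J.add_mem ha hb
      have h : a + e + (b + e) = a + b := by
        have : a + e + (b + e) = a + b + (e + e) := by abel
        rw [this, ZModModule.add_self, add_zero]
      rwa [h] at this
  neg_mem' := by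
    intro a ha
    have : -a = a := neg_eq_of_add_eq_zero_left (ZModModule.add_self a)
    rwa [this]

theorem mem_adj {J : AddSubgroup V} {e v : V} : v ∈ adj J e ↔ v ∈ J ∨ v + e ∈ J := Iff.rfl

theorem memc {J : AddSubgroup V} {a b : V} (hb : b ∈ J) (h : a + b ∈ J) : a ∈ J := by
  have := J.add_mem h hb
  rwa [s2] at this

namespace Bal

variable {y s : V} {H : AddSubgroup V}

theorem Vy (B : Bal D y s H) {v : V} (h : C D y v) : v ∈ H :=
  B.sup v 0 (by rw [q0]; exact h)

/-- `s z ∈ K ⇒ z ∈ H` -/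
theorem zero (B : Bal D y s H) (B' : Bal D y (s + y) H) {z h : V} (hh : h ∈ H)
    (e : D.q s z = D.q y h) : z ∈ H := by
  obtain ⟨u, h1, h2, h3⟩ := lk e
  have h4 : z + u ∈ H := by
    apply B'.sup (z + u) (z + u)
    rw [q_symm, q_symm (s + y)]
    apply (D.add (z + u) y (s + y)).2
    have : y + (s + y) = s := by rw [add_comm s y, s3]
    rw [this]
    exact h1.symm
  have h5 : h + u ∈ H := B.Vy h2
  have h6 : u ∈ H := memc hh (by rwa [add_comm])
  exact memc h6 h4

end Bal

/-- half of the claim in the proof of BETA -/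
theorem beta_aux {y s d e k n x : V} {H : AddSubgroup V} (B : Bal D y s H)
    (B' : Bal D y (s + y) H) (hd : d ∈ H) (hf : Full D y d H) (h1 : D.q s n = D.q d k)
    (h2 : D.q y n = D.q d e) (hx : x + k ∈ pull D d y H) :
    ∃ g v, v + e ∈ pull D d y H ∧ D.q g x = D.q d v := by
  obtain ⟨a, ha, e1⟩ := hx
  obtain ⟨w1, e2⟩ := B.sub a ha
  obtain ⟨w3, e3⟩ := B.sub d hd
  -- d x = s (w1 + n)
  have e4 : D.q d x = D.q s (w1 + n) := by
    have := addr (e1.trans e2) h1.symm
    rwa [s2] at this
  have e5 : D.q (x + y) d = D.q s (w1 + n + w3) := by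
    exact addl (by rw [q_symm]; exact e4) e3
  obtain ⟨u, c1, c2, c3⟩ := lk e5
  -- u + n ∈ H
  have e6 : D.q s (u + n) = D.q y (a + d) := by
    have q1 : D.q s (u + n) = D.q s (w1 + w3) := by
      apply mv
      have : u + n + (w1 + w3) = w1 + n + w3 + u := by abel
      rwa [this]
    rw [q1]
    exact (addr e2 e3).symm
  have hu : u + n ∈ H := B.zero B' (H.add_mem ha hd) e6
  have hm : u + d + n ∈ H := by
    have := H.add_mem hu hd
    have h3 : u + n + d = u + d + n := by abel
    rwa [h3] at this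
  obtain ⟨j, e7⟩ := hf (u + d + n) hm
  refine ⟨u + d, j + e, ?_, ?_⟩
  · rw [s2]
    exact ⟨_, hm, e7.symm⟩
  · have e8 : D.q (u + d) x = D.q (u + d) y := by
      apply mv
      have := c1.symm
      rwa [add_comm d u] at this
    rw [e8, q_symm]
    have := addr e7 h2
    rwa [s2] at this

/-- **THEOREM BETA**: Theorem I for every subgroup of `Q_y`. -/
theorem beta [Finite V] {y s d e k n : V} {H : AddSubgroup V} (B : Bal D y s H)
    (B' : Bal D y (s + y) H) (hd : d ∈ H) (hf : Full D y d H) (hn : n ∉ H)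
    (h1 : D.q s n = D.q d k) (h2 : D.q y n = D.q d e) : False := by
  have hJ : ∀ v, C D d v → v ∈ pull D d y H := fun v hv => ⟨0, H.zero_mem, by rw [q0]; exact hv⟩
  have heJ : e ∉ pull D d y H := by
    rintro ⟨h, hh, e1⟩
    have e2 : D.q y n = D.q y h := h2.trans e1
    have : C D y (n + h) := q_eq_iff.1 e2
    exact hn (memc hh (B.Vy this))
  obtain ⟨x, hx, hc⟩ := alpha (D := D) (d := d) (e := e) (k := k) (J := pull D d y H)
    (A := adj (pull D d y H) e) hJ (fun v hv => Or.inl hv)
    (Or.inr (by rw [ZModModule.add_self]; exact (pull D d y H).zero_mem)) heJ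
  rcases hx with hx | hx
  · obtain ⟨g, v, hv, e3⟩ := beta_aux B B' hd hf h1 h2 hx
    exact hc g v hv e3
  · have B'' : Bal D y (s + y + y) H := by rwa [s2]
    have h3 : D.q (s + y) n = D.q d (k + e) := addl h1 h2
    have hx' : x + (k + e) ∈ pull D d y H := by rwa [← add_assoc]
    obtain ⟨g, v, hv, e3⟩ := beta_aux B' B'' hd hf h3 h2 hx'
    exact hc g v hv e3

/-- **COROLLARY T** (LAW A of helper25): `Q_y ∩ Q_d ∩ Q_{s+d} < K`. -/
theorem corT [Finite V] {y s d v w w' : V} {H : AddSubgroup V} (B : Bal D y s H)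
    (B' : Bal D y (s + y) H) (hd : d ∈ H) (hf : Full D y d H)
    (h1 : D.q y v = D.q d w) (h2 : D.q y v = D.q (s + d) w') : v ∈ H := by
  by_contra hv
  obtain ⟨u, c1, c2, c3⟩ := lk h2
  have hu : u ∉ H := fun h => hv (memc h (B.Vy c1))
  have e1 : D.q y u = D.q y v := mv (by rwa [add_comm])
  have e2 : D.q (s + y) u = D.q d u := by
    apply q_eq'
    have : s + y + d = y + (s + d) := by abel
    rwa [this]
  have B'' : Bal D y (s + y + y) H := by rwa [s2]
  exact beta (n := u) (e := w) (k := u) B' B'' hd hf hu e2 (e1.trans h1)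

end Pool.Agent.ETAL
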