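import Pool.Agent.ETAL.Asm
import Pool.Agent.ETPR.PD

/-!
# DIRA at an element of minimal rank gives PUR and PX (lead, helper32), helper24
-/

set_option autoImplicit false
set_option linter.unusedSectionVars false
set_option linter.unusedSimpArgs false

namespace Pool.Agent.ETAL

open Pool.Agent.Helper58.PLine (QData)
open Pool.Agent.ETCP
open Pool.Agent.ETPF
open Pool.Agent.ETPT
open ETC (ind ind_true ind_false ind_and ind_congr ind_nonneg ind_le sum_ind_shift add_common)

variable {V Q : Type} [AddCommGroup V] [Module (ZMod 2) V] {D : QData V Q}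

/-- the group `D(c)` spanned by the slots of `c` -/
def DD (D : QData V Q) (c : Q) : AddSubgroup V :=
  (Submodule.span (ZMod 2) {s | Sg D c s}).toAddSubgroup

theorem mem_DD {c : Q} {v : V} :
    v ∈ DD D c ↔ v ∈ Submodule.span (ZMod 2) {s | Sg D c s} := Iff.rfl

theorem DD_slot {c : Q} {s : V} (h : Sg D c s) : s ∈ DD D c := Submodule.subset_span h

theorem DD_ann {c : Q} {s v : V} (h : Sg D c s) (hv : C D s v) : v ∈ DD D c := by
  obtain ⟨r, hr⟩ := h
  have h1 := DD_slot (Sg.right hr)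
  have h2 := DD_slot (Sg.right (qa hr hv))
  have h3 := (DD D c).add_mem h1 h2
  rwa [← add_assoc, ZModModule.add_self, zero_add] at h3

/-- the conclusion of DIRA for the pair `y, t`, weak form (helper16): `r = y + t`, `c = y t`; some
`s` with `|s V_r| ≤ |y V_r|` and some `z ≠ 0` with `z D(c) < s V_r` -/
def DiraAt (D : QData V Q) (y t : V) : Prop :=
  ∃ s z, z ≠ 0 ∧
    Nat.card ↥(ann D (y + t) ⊓ ann D y) ≤ Nat.card ↥(ann D (y + t) ⊓ ann D s) ∧
    ∀ g ∈ DD D (D.q y t), ∃ h, C D (y + t) h ∧ D.q z g = D.q s h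

theorem card_sup_inf' [Finite V] (A B : AddSubgroup V) :
    Nat.card A * Nat.card B = Nat.card ↥(A ⊔ B) * Nat.card ↥(A ⊓ B) := by
  have h := Pool.Agent.ETPR.card_sup_inf (AddSubgroup.toZModSubmodule 2 A)
    (AddSubgroup.toZModSubmodule 2 B)
  rw [← map_sup, ← map_inf] at h
  exact h

/-- the key inclusion -/
theorem dira_key [Finite V] {y t : V}
    (hmin : ∀ z, z ≠ 0 → Nat.card (ann D z) ≤ Nat.card (ann D y))
    (hd : DiraAt D y t) (sr : Sg D (D.q y t) (y + t)) {v : V} (hv : v ∈ DD D (D.q y t)) :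
    ∃ h, C D (y + t) h ∧ C D y (v + h) := by
  classical
  have := Fintype.ofFinite V
  obtain ⟨s, z, zne, h1, h2⟩ := hd
  set c := D.q y t with hc
  have sy : Sg D c y := ⟨t, rfl⟩
  -- `H' = V_{y+t} + V_y`
  set H' : AddSubgroup V := ann D (y + t) ⊔ ann D y with hH'
  have hle : H' ≤ DD D c :=
    sup_le (fun v hv => DD_ann sr hv) (fun v hv => DD_ann sy hv)
  suffices hs : DD D c ≤ H' by
    obtain ⟨a, ha, b, hb, e⟩ := AddSubgroup.mem_sup.1 (hs hv)
    refine ⟨a, ha, ?_⟩
    rw [← e]
    have : a + b + a = b := by rw [add_comm a b, s2]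
    rwa [this]
  -- counting
  set P : V → V → Prop := fun g h => g ∈ DD D c ∧ h ∈ ann D (y + t) ∧ D.q z g = D.q s h with hP
  have cnt1 : ∀ g, g ∈ DD D c →
      ∑ h : V, ind (P g h) = ∑ h : V, ind (h ∈ ann D (y + t) ⊓ ann D s) := by
    intro g hg
    obtain ⟨h0, h3, h4⟩ := h2 g hg
    apply sum_ind_shift _ _ h0
    intro h
    constructor
    · rintro ⟨-, k, e⟩
      have k1 := q_eq_iff.1 (e.symm.trans h4)
      rw [s2] at k1
      refine AddSubgroup.mem_inf.2 ⟨?_, k1⟩
      have := (ann D (y + t)).add_mem k h3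
      rwa [s2] at this
    · intro e
      obtain ⟨e1, e2⟩ := AddSubgroup.mem_inf.1 e
      refine ⟨hg, (ann D (y + t)).add_mem e1 h3, ?_⟩
      rw [h4]
      symm
      apply q_eq_iff.2
      rw [s2]
      exact e2
  have cnt2 : ∀ h, ∑ g : V, ind (P g h) ≤
      ind (h ∈ ann D (y + t)) * ∑ g : V, ind (g ∈ ann D z) := by
    intro h
    by_cases hh : h ∈ ann D (y + t)
    · rw [ind_true hh, one_mul]
      by_cases hex : ∃ g, P g h
      · obtain ⟨g0, k1, k2, k3⟩ := hex
        have : ∑ g : V, ind (P g h) ≤ ∑ g : V, ind (g + g0 ∈ ann D z) := by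
          refine Finset.sum_le_sum fun g _ => ind_le ?_
          rintro ⟨-, -, e⟩
          exact q_eq_iff.1 (e.trans k3.symm)
        refine this.trans (le_of_eq ?_)
        apply sum_ind_shift _ _ g0
        intro g
        rw [s2]
      · have : ∀ g, ind (P g h) = 0 := fun g => ind_false fun k => hex ⟨g, k⟩
        rw [Finset.sum_congr rfl fun g _ => this g, Finset.sum_const_zero]
        exact Finset.sum_nonneg fun _ _ => ind_nonneg _
    · rw [ind_false hh, zero_mul]
      refine le_of_eq (Finset.sum_eq_zero fun g _ => ind_false ?_)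
      rintro ⟨-, k, -⟩
      exact hh k
  have card_eq : ∀ S : AddSubgroup V, ∑ g : V, ind (g ∈ S) = (Nat.card S : ℤ) := by
    intro S
    rw [Nat.card_eq_fintype_card, Fintype.card_subtype, Finset.card_filter]
    push_cast
    refine Finset.sum_congr rfl fun g _ => ?_
    by_cases hg : g ∈ S
    · rw [ind_true hg, if_pos hg]
    · rw [ind_false hg, if_neg hg]
  have tot1 : ∑ g : V, ∑ h : V, ind (P g h) =
      (Nat.card (DD D c) : ℤ) * Nat.card ↥(ann D (y + t) ⊓ ann D s) := by
    have : ∀ g, ∑ h : V, ind (P g h) =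
        ind (g ∈ DD D c) * (Nat.card ↥(ann D (y + t) ⊓ ann D s) : ℤ) := by
      intro g
      by_cases hg : g ∈ DD D c
      · rw [cnt1 g hg, ind_true hg, one_mul, card_eq]
      · rw [ind_false hg, zero_mul]
        refine Finset.sum_eq_zero fun h _ => ind_false ?_
        rintro ⟨k, -⟩
        exact hg k
    rw [Finset.sum_congr rfl fun g _ => this g, ← Finset.sum_mul, card_eq]
  have tot2 : ∑ g : V, ∑ h : V, ind (P g h) ≤
      (Nat.card (ann D (y + t)) : ℤ) * Nat.card (ann D z) := by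
    rw [Finset.sum_comm]
    refine (Finset.sum_le_sum fun h _ => cnt2 h).trans (le_of_eq ?_)
    rw [← Finset.sum_mul, card_eq, card_eq]
  have hz := hmin z zne
  have hsi := card_sup_inf' (ann D (y + t)) (ann D y)
  rw [← hH'] at hsi
  have hpos : 0 < Nat.card ↥(ann D (y + t) ⊓ ann D y) := Nat.card_pos
  have hfin : Nat.card (DD D c) ≤ Nat.card H' := by
    rw [tot1] at tot2
    have h5 : Nat.card (DD D c) * Nat.card ↥(ann D (y + t) ⊓ ann D s) ≤
        Nat.card (ann D (y + t)) * Nat.card (ann D z) := by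
      exact_mod_cast tot2
    have h6 : Nat.card (ann D (y + t)) * Nat.card (ann D z) ≤
        Nat.card (ann D (y + t)) * Nat.card (ann D y) :=
      Nat.mul_le_mul_left _ hz
    have h7 : Nat.card (DD D c) * Nat.card ↥(ann D (y + t) ⊓ ann D y) ≤
        Nat.card (DD D c) * Nat.card ↥(ann D (y + t) ⊓ ann D s) :=
      Nat.mul_le_mul_left _ h1
    have h8 := (h7.trans h5).trans h6
    rw [hsi] at h8
    exact Nat.le_of_mul_le_mul_right h8 hpos
  have heq : H' = DD D c := AddSubgroup.eq_of_le_of_card_ge hle hfin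
  exact heq.ge

/-- `y t = (y + t) t` -/
theorem q_self_add {y t : V} (he : D.e = 0) : D.q (y + t) t = D.q y t := by
  apply q_eq'
  have : y + t + y = t := by rw [add_comm y t, s2]
  rw [this]
  exact C.self he t

theorem DD_sub {y t : V} (he : D.e = 0) {v w : V} (h : D.q y v = D.q t w) :
    v ∈ DD D (D.q y t) := by
  obtain ⟨u, h1, h2, h3⟩ := lk h
  have sy : Sg D (D.q y t) y := ⟨t, rfl⟩
  have sr : Sg D (D.q y t) (y + t) := ⟨t, q_self_add he⟩
  exact memc (DD_ann sr h3) (DD_ann sy h1)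

/-- **the kinds under DIRA**: `E_t = y D(c)` -/
theorem dira_bal [Finite V] {y t : V} (he : D.e = 0)
    (hmin : ∀ z, z ≠ 0 → Nat.card (ann D z) ≤ Nat.card (ann D y))
    (hd : DiraAt D y t) : Bal D y t (DD D (D.q y t)) := by
  refine ⟨fun v hv => ?_, fun v w h => DD_sub he h⟩
  obtain ⟨h, h1, h2⟩ := dira_key hmin hd ⟨t, q_self_add he⟩ hv
  refine ⟨h, ?_⟩
  rw [mv h2]
  exact q_eq' h1

/-- **DIRA at `y` of minimal rank is impossible** -/
theorem false_of_dira [Finite V] {y x : V} (he : D.e = 0)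
    (k4 : ∀ z, z ≠ 0 → ETCD2.K4At D z) (hxy : ¬ C D y x)
    (hmin : ∀ z, z ≠ 0 → Nat.card (ann D z) ≤ Nat.card (ann D y))
    (hd : ∀ t, ¬ C D y t → DiraAt D y t) : False := by
  have hq : ∀ t, D.q y (t + y) = D.q y t := fun t => mv (by
    have : t + y + t = y := by rw [add_comm t y, s2]
    rw [this]
    exact C.self he y)
  have hbal : ∀ t, ¬ C D y t → BB D y t (DD D (D.q y t)) := by
    intro t ht
    have ht' : ¬ C D y (t + y) := fun h => ht ((hq t).symm.trans h)
    refine ⟨dira_bal he hmin (hd t ht), ?_⟩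
    have := dira_bal he hmin (hd _ ht')
    rwa [hq] at this
  refine false_of_pur_px he k4 hxy (fun t ht => ⟨_, hbal t ht⟩) ?_
  intro v v' H H' hv e B B'
  have hv' : ¬ C D y v' := fun h => hv (e.trans h)
  have k1 : ∀ {t : V} {H : AddSubgroup V}, ¬ C D y t → BB D y t H → H = DD D (D.q y t) := by
    intro t H ht B
    have B0 := hbal t ht
    ext w
    rw [B.mem_iff, B0.mem_iff]
  rw [k1 hv B, k1 hv' B', e]

end Pool.Agent.ETAL
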