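import Pool.Agent.ETPR.PD

/-!
# GP: Theorem L' of helper46 in abstract bilinear form (helper35's GP, helper58's GP+), helper24

`b : X × G → B` biadditive, `al : X → F_2`.  If all planes inside `ker al` are linked through `G`
and every `g` is killed by some `x` with `al x = 1`, then some `x` with `al x = 1` kills `G`.
For the version modulo a subgroup `C` take `B / C`.
-/

set_option autoImplicit false
set_option linter.unusedSectionVars false

namespace Pool.Agent.ETAL

open ETC
open Pool.Agent.ETPR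

variable {X : Type} [AddCommGroup X] [Module (ZMod 2) X]

/-- sums of indicator functions of subspaces -/
def Cone (f : X → ℤ) : Prop :=
  ∃ (J : Type) (_ : Fintype J) (W : J → Submodule (ZMod 2) X), ∀ x, f x = ∑ j, ind (x ∈ W j)

theorem Cone.mul {f g : X → ℤ} (hf : Cone f) (hg : Cone g) : Cone fun x => f x * g x := by
  obtain ⟨J, _, W, h⟩ := hf
  obtain ⟨K, _, W', h'⟩ := hg
  refine ⟨J × K, inferInstance, fun p => W p.1 ⊓ W' p.2, fun x => ?_⟩
  show f x * g x = _
  rw [h, h', Finset.sum_mul_sum, Fintype.sum_prod_type]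
  refine Finset.sum_congr rfl fun i _ => Finset.sum_congr rfl fun j _ => ?_
  rw [ind_mul_ind, Submodule.mem_inf]

theorem Cone.pow2 {f : X → ℤ} (hf : Cone f) (k : ℕ) : Cone fun x => f x ^ (2 ^ k) := by
  induction k with
  | zero => simpa using hf
  | succ k ih =>
    obtain ⟨J, i, W, h⟩ := ih.mul ih
    refine ⟨J, i, W, fun x => ?_⟩
    rw [← h x]
    show f x ^ (2 ^ (k + 1)) = f x ^ (2 ^ k) * f x ^ (2 ^ k)
    rw [pow_succ, pow_mul, pow_two]

theorem Cone.nonneg [Fintype X] {f : X → ℤ} (hf : Cone f) (l : D X) :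
    0 ≤ ∑ x, sg (l x) * f x := by
  obtain ⟨J, _, W, h⟩ := hf
  simp only [h, Finset.mul_sum]
  rw [Finset.sum_comm]
  exact Finset.sum_nonneg fun j _ => sub_sum_nonneg _ _

/-- the sum over the kernel, for a function -/
theorem sum_ker_fun [Fintype X] {M : X → ℤ} {l : D X} (h0 : ∑ x, sg (l x) * M x = 0) :
    ∑ t, ind (l t = 0) * ∑ x, sg (l x) * (M x * M (x + t)) = 0 := by
  have e1 : ∀ x, ∑ t, ind (l t = 0) * (sg (l x) * (M x * M (x + t))) =
      ∑ y, ind (l x + l y = 0) * (sg (l x) * (M x * M y)) := by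
    intro x
    have h1 := Equiv.sum_comp (Equiv.addLeft x)
      (fun y => ind (l x + l y = 0) * (sg (l x) * (M x * M y)))
    rw [← h1]
    refine Finset.sum_congr rfl fun t _ => ?_
    rw [Equiv.coe_addLeft, map_add, ← add_assoc, ZModModule.add_self, zero_add]
  have e2 : ∑ t, ind (l t = 0) * ∑ x, sg (l x) * (M x * M (x + t)) =
      ∑ x, ∑ y, ind (l x + l y = 0) * (sg (l x) * (M x * M y)) := by
    simp only [Finset.mul_sum]
    rw [Finset.sum_comm]
    exact Finset.sum_congr rfl fun x _ => e1 x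
  have e3 : 2 * ∑ x, ∑ y, ind (l x + l y = 0) * (sg (l x) * (M x * M y)) =
      ∑ x, ∑ y, (sg (l x) * M x * M y + M x * (sg (l y) * M y)) := by
    simp only [Finset.mul_sum]
    refine Finset.sum_congr rfl fun x _ => Finset.sum_congr rfl fun y _ => ?_
    have h2 := two_ind (l x) (l y)
    have h3 := sg_mul_self (l x)
    linear_combination (sg (l x) * (M x * M y)) * h2 +
      (sg (l y) * M x * M y) * h3
  have e4 : ∑ x, ∑ y, (sg (l x) * M x * M y + M x * (sg (l y) * M y)) = 0 := by
    simp only [Finset.sum_add_distrib, ← Finset.mul_sum, ← Finset.sum_mul]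
    rw [h0]
    ring
  rw [e2]
  omega

/-- all power sums vanish -/
theorem pow_sum [Fintype X] {M : X → ℤ} {l : D X} (h0 : ∑ x, sg (l x) * M x = 0)
    (hc : ∀ t, l t = 0 → Cone fun x => M x * M (x + t)) (k : ℕ) :
    ∑ x, sg (l x) * M x ^ (2 ^ k) = 0 := by
  induction k with
  | zero => simpa using h0
  | succ k ih =>
    have h1 := sum_ker_fun ih
    rw [Finset.sum_eq_zero_iff_of_nonneg (fun t _ => by
      by_cases ht : l t = 0
      · rw [ind_true ht, one_mul]
        have := ((hc t ht).pow2 k).nonneg l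
        simpa [mul_pow] using this
      · rw [ind_false ht, zero_mul])] at h1
    have h2 := h1 0 (Finset.mem_univ _)
    rw [ind_true (map_zero l), one_mul] at h2
    simp only [add_zero] at h2
    rw [← h2]
    refine Finset.sum_congr rfl fun x _ => ?_
    congr 1
    rw [pow_succ, pow_mul, pow_two]

/-- a nonnegative function bounded by its value `m > 0` at `0` and with vanishing signed power sums
takes the value `m` outside the kernel -/
theorem exists_max [Fintype X] {M : X → ℤ} {l : D X} (hM0 : ∀ x, 0 ≤ M x) (hm : 0 < M 0)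
    (hM : ∀ x, M x ≤ M 0) (h : ∀ k : ℕ, ∑ x, sg (l x) * M x ^ (2 ^ k) = 0) :
    ∃ x, l x = 1 ∧ M x = M 0 := by
  classical
  by_contra hcon
  push Not at hcon
  set m := M 0 with hmdef
  have hlt : ∀ x, l x = 1 → M x ≤ m - 1 := by
    intro x hx
    have h1 := hM x
    have h2 := hcon x hx
    omega
  -- choose the exponent
  obtain ⟨N, hN⟩ : ∃ k : ℕ, (Fintype.card X : ℤ) * (m - 1) ^ (2 ^ k) < m ^ (2 ^ k) := by
    -- Bernoulli
    have hb : ∀ n : ℕ, (n : ℤ) * (m - 1) ^ n ≤ m ^ n * m := by
      intro n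
      induction n with
      | zero => simp; exact hm.le
      | succ n ih =>
        have h1 : (m - 1) ^ n ≤ m ^ n := pow_le_pow_left₀ (by omega) (by omega) n
        have h2 : (0 : ℤ) ≤ (m - 1) := by omega
        have h3 : (0 : ℤ) ≤ m ^ n := pow_nonneg hm.le n
        have h4 : (0 : ℤ) ≤ (m - 1) ^ n := pow_nonneg h2 n
        push_cast
        have e1 : ((n : ℤ) + 1) * (m - 1) ^ (n + 1) =
            ((n : ℤ) * (m - 1) ^ n) * (m - 1) + (m - 1) ^ n * (m - 1) := by ring
        rw [e1]
        have h5 : (n : ℤ) * (m - 1) ^ n * (m - 1) ≤ m ^ n * m * (m - 1) :=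
          mul_le_mul_of_nonneg_right ih h2
        have h6 : (m - 1) ^ n * (m - 1) ≤ m ^ n * m := by
          calc (m - 1) ^ n * (m - 1) ≤ m ^ n * (m - 1) := mul_le_mul_of_nonneg_right h1 h2
            _ ≤ m ^ n * m := mul_le_mul_of_nonneg_left (by omega) h3
        calc _ ≤ m ^ n * m * (m - 1) + m ^ n * m := add_le_add h5 h6
          _ = m ^ (n + 1) * m := by ring
    obtain ⟨k, hk⟩ : ∃ k : ℕ, (Fintype.card X : ℤ) * m < ((2 ^ k : ℕ) : ℤ) := by
      obtain ⟨k, hk⟩ := pow_unbounded_of_one_lt ((Fintype.card X : ℤ) * m) (by norm_num : (1 : ℤ) < 2)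
      exact ⟨k, by push_cast; exact hk⟩
    refine ⟨k, ?_⟩
    have h1 := hb (2 ^ k)
    have h4 : (0 : ℤ) ≤ (m - 1) ^ (2 ^ k) := pow_nonneg (by omega) _
    rcases h4.eq_or_lt with h5 | h5
    · rw [← h5, mul_zero]
      exact pow_pos hm _
    · by_contra h6
      push Not at h6
      have h7 : m ^ (2 ^ k) * m ≤ (Fintype.card X : ℤ) * (m - 1) ^ (2 ^ k) * m :=
        mul_le_mul_of_nonneg_right h6 hm.le
      have h8 : ((2 ^ k : ℕ) : ℤ) * (m - 1) ^ (2 ^ k) ≤
          (Fintype.card X : ℤ) * m * (m - 1) ^ (2 ^ k) := by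
        calc _ ≤ _ := h1.trans h7
          _ = _ := by ring
      exact absurd (le_of_mul_le_mul_right h8 h5) (not_le.2 hk)
  have h0 := h N
  -- split the sum
  have h1 : m ^ (2 ^ N) - (Fintype.card X : ℤ) * (m - 1) ^ (2 ^ N) ≤
      ∑ x, sg (l x) * M x ^ (2 ^ N) := by
    have h2 : ∀ x, -((m - 1) ^ (2 ^ N)) + (if x = 0 then m ^ (2 ^ N) + (m - 1) ^ (2 ^ N) else 0) ≤
        sg (l x) * M x ^ (2 ^ N) := by
      intro x
      have h3 : (0 : ℤ) ≤ M x ^ (2 ^ N) := pow_nonneg (hM0 x) _
      have h4 : (0 : ℤ) ≤ (m - 1) ^ (2 ^ N) := pow_nonneg (by omega) _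
      by_cases hx0 : x = 0
      · subst hx0
        rw [if_pos rfl, map_zero]
        have : sg (0 : ZMod 2) = 1 := by decide
        rw [this, one_mul, ← hmdef]
        omega
      · rw [if_neg hx0]
        rcases zm (l x) with hx | hx
        · rw [hx]
          have : sg (0 : ZMod 2) = 1 := by decide
          rw [this, one_mul]
          omega
        · have h5 : M x ^ (2 ^ N) ≤ (m - 1) ^ (2 ^ N) :=
            pow_le_pow_left₀ (hM0 x) (hlt x hx) _
          rw [hx]
          have : sg (1 : ZMod 2) = -1 := by decide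
          rw [this]
          omega
    calc _ ≤ ∑ x : X, (-((m - 1) ^ (2 ^ N)) +
        (if x = 0 then m ^ (2 ^ N) + (m - 1) ^ (2 ^ N) else 0)) := by
          rw [Finset.sum_add_distrib, Finset.sum_const, Finset.sum_ite_eq' Finset.univ (0 : X),
            if_pos (Finset.mem_univ _), Finset.card_univ, nsmul_eq_mul]
          have h4 : (0 : ℤ) ≤ (m - 1) ^ (2 ^ N) := pow_nonneg (by omega) _
          linarith
      _ ≤ _ := Finset.sum_le_sum fun x _ => h2 x
  rw [h0] at h1
  linarith

variable {G B : Type} [AddCommGroup G] [Module (ZMod 2) G] [AddCommGroup B]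

theorem ind_le_one' (P : Prop) : ind P ≤ 1 := by
  by_cases h : P
  · rw [ind_true h]
  · rw [ind_false h]; exact zero_le_one

theorem neg_self2 (g : G) : -g = g := neg_eq_of_add_eq_zero_left (ZModModule.add_self g)

/-- biadditive maps -/
structure Bi (b : X → G → B) : Prop where
  left : ∀ x x' g, b (x + x') g = b x g + b x' g
  right : ∀ x g g', b x (g + g') = b x g + b x g'

namespace Bi

variable {b : X → G → B} (hb : Bi b)

include hb

theorem zl (g : G) : b 0 g = 0 := by
  have := hb.left 0 0 g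
  rw [add_zero] at this
  exact left_eq_add.1 this

theorem zr (x : X) : b x 0 = 0 := by
  have := hb.right x 0 0
  rw [add_zero] at this
  exact left_eq_add.1 this

theorem two (x : X) (g : G) : b x g + b x g = 0 := by
  rw [← hb.right, ZModModule.add_self, hb.zr]

/-- `{g : b x g = 0}` -/
def A (x : X) : Submodule (ZMod 2) G where
  carrier := {g | b x g = 0}
  add_mem' := by
    intro g g' h h'
    show b x (g + g') = 0
    rw [hb.right, h, h', add_zero]
  zero_mem' := hb.zr x
  smul_mem' := by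
    intro r g hg
    rcases zm r with rfl | rfl
    · rw [zero_smul]; exact hb.zr x
    · rwa [one_smul]

/-- `{x : b x g = 0}` -/
def U (g : G) : Submodule (ZMod 2) X where
  carrier := {x | b x g = 0}
  add_mem' := by
    intro x x' h h'
    show b (x + x') g = 0
    rw [hb.left, h, h', add_zero]
  zero_mem' := hb.zl g
  smul_mem' := by
    intro r x hx
    rcases zm r with rfl | rfl
    · rw [zero_smul]; exact hb.zl g
    · rwa [one_smul]

/-- `{x : b x m = b t w for some w}` -/
def P (t : X) (m : G) : Submodule (ZMod 2) X where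
  carrier := {x | ∃ w, b x m = b t w}
  add_mem' := by
    rintro x x' ⟨w, h⟩ ⟨w', h'⟩
    exact ⟨w + w', by rw [hb.left, hb.right, h, h']⟩
  zero_mem' := ⟨0, by rw [hb.zl, hb.zr]⟩
  smul_mem' := by
    rintro r x ⟨w, h⟩
    rcases zm r with rfl | rfl
    · exact ⟨0, by rw [zero_smul, hb.zl, hb.zr]⟩
    · exact ⟨w, by rw [one_smul, h]⟩

theorem mem_A {x : X} {g : G} : g ∈ hb.A x ↔ b x g = 0 := Iff.rfl

theorem mem_U {x : X} {g : G} : x ∈ hb.U g ↔ b x g = 0 := Iff.rfl

theorem mem_P {t x : X} {m : G} : x ∈ hb.P t m ↔ ∃ w, b x m = b t w := Iff.rfl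

end Bi

/-- the data of the set-level version: `Z x g` means that the product of `x` and `g` lies in `C` -/
structure Rel (Z : X → G → Prop) : Prop where
  addl : ∀ x x' g, Z x g → Z x' g → Z (x + x') g
  addr : ∀ x g g', Z x g → Z x g' → Z x (g + g')
  zl : ∀ g, Z 0 g
  zr : ∀ x, Z x 0

namespace Rel

variable {Z : X → G → Prop} (hZ : Rel Z)

include hZ

/-- `{g : Z x g}` -/
def A (x : X) : Submodule (ZMod 2) G where
  carrier := {g | Z x g}
  add_mem' := fun h h' => hZ.addr x _ _ h h'
  zero_mem' := hZ.zr x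
  smul_mem' := by
    intro r g hg
    rcases zm r with rfl | rfl
    · rw [zero_smul]; exact hZ.zr x
    · rwa [one_smul]

/-- `{x : Z x g}` -/
def U (g : G) : Submodule (ZMod 2) X where
  carrier := {x | Z x g}
  add_mem' := fun h h' => hZ.addl _ _ g h h'
  zero_mem' := hZ.zl g
  smul_mem' := by
    intro r x hx
    rcases zm r with rfl | rfl
    · rw [zero_smul]; exact hZ.zl g
    · rwa [one_smul]

theorem mem_A {x : X} {g : G} : g ∈ hZ.A x ↔ Z x g := Iff.rfl

theorem mem_U {x : X} {g : G} : x ∈ hZ.U g ↔ Z x g := Iff.rfl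

end Rel

/-- **GP, set-level version**: `P t m` is a subspace containing all `x` for which `m` is a sum of
an element of `A x` and an element of `A (x + t)`; for `x ∈ ker al` these are all its elements. -/
theorem gp_set [Finite X] [Finite G] {Z : X → G → Prop} (hZ : Rel Z) {al : D X}
    (P : X → G → Submodule (ZMod 2) X)
    (hP : ∀ t x m a, al t = 0 → Z x a → Z (x + t) (m + a) → x ∈ P t m)
    (ha : ∀ t x m, al t = 0 → al x = 0 → x ∈ P t m → ∃ a, Z x a ∧ Z (x + t) (m + a))
    (hc : ∀ g, ∃ x, al x = 1 ∧ Z x g) : ∃ x, al x = 1 ∧ ∀ g, Z x g := by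
  classical
  have iX := Fintype.ofFinite X
  have iG := Fintype.ofFinite G
  set M : X → ℤ := fun x => ∑ g : G, ind (Z x g) with hMdef
  have hMA : ∀ x, M x = (Nat.card (hZ.A x) : ℤ) := fun x => (sum_ind_card (hZ.A x))
  have hM0 : M 0 = (Fintype.card G : ℤ) := by
    simp only [hMdef]
    rw [Finset.sum_congr rfl fun g _ => ind_true (hZ.zl g)]
    simp
  have hpos : ∀ x, 0 ≤ M x := fun x => Finset.sum_nonneg fun _ _ => ind_nonneg _
  have hle : ∀ x, M x ≤ M 0 := by
    intro x
    refine Finset.sum_le_sum fun g _ => ?_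
    rw [ind_true (hZ.zl g)]
    exact ind_le_one' _
  -- the signed sum of `M`
  have hs : ∑ x, sg (al x) * M x = 0 := by
    simp only [hMdef, Finset.mul_sum]
    rw [Finset.sum_comm]
    refine Finset.sum_eq_zero fun g _ => ?_
    have h1 : ¬ hZ.U g ≤ LinearMap.ker al := by
      intro h
      obtain ⟨x, h2, h3⟩ := hc g
      have h4 : x ∈ LinearMap.ker al := h h3
      rw [LinearMap.mem_ker, h2] at h4
      exact one_ne_zero h4
    exact sub_sum_of_not h1
  -- the majorant
  set R : X → X → ℤ := fun t x => (∑ m : G, ind (x ∈ P t m)) *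
    ∑ z : {z : G // Z t z}, ind (x ∈ hZ.U (z : G)) with hR
  have hRC : ∀ t, Cone (R t) := fun t =>
    Cone.mul ⟨G, iG, P t, fun x => rfl⟩ ⟨{z : G // Z t z}, inferInstance,
      fun z => hZ.U (z : G), fun x => rfl⟩
  have hinf : ∀ t x, (Nat.card ↥(hZ.A x ⊓ hZ.A (x + t)) : ℤ) =
      ∑ z : {z : G // Z t z}, ind (x ∈ hZ.U (z : G)) := by
    intro t x
    rw [← sum_ind_card]
    have h1 : ∀ z : G, ind (z ∈ hZ.A x ⊓ hZ.A (x + t)) =
        if Z t z then ind (x ∈ hZ.U z) else 0 := by
      intro z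
      split_ifs with h
      · apply ind_congr
        rw [Submodule.mem_inf, hZ.mem_A, hZ.mem_A, hZ.mem_U]
        exact ⟨fun h' => h'.1, fun h' => ⟨h', hZ.addl _ _ _ h' h⟩⟩
      · apply ind_false
        rw [Submodule.mem_inf, hZ.mem_A, hZ.mem_A]
        rintro ⟨h2, h3⟩
        apply h
        have h4 := hZ.addl _ _ _ h2 h3
        rwa [← add_assoc, ZModModule.add_self, zero_add] at h4
    simp only [h1]
    rw [← Finset.sum_filter]
    exact (Finset.sum_subtype (Finset.univ.filter (fun z : G => Z t z)) (by simp) _)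
  have hsub : ∀ t x, al t = 0 → ∀ m ∈ hZ.A x ⊔ hZ.A (x + t), x ∈ P t m := by
    intro t x ht m hm
    obtain ⟨a, h1, a', h2, rfl⟩ := Submodule.mem_sup.1 hm
    refine hP t x _ a ht h1 ?_
    have : a + a' + a = a' := by
      rw [add_comm a a', add_assoc, ZModModule.add_self, add_zero]
    rw [this]
    exact h2
  have hprod : ∀ t x, M x * M (x + t) =
      (Nat.card ↥(hZ.A x ⊔ hZ.A (x + t)) : ℤ) *
        ∑ z : {z : G // Z t z}, ind (x ∈ hZ.U (z : G)) := by
    intro t x
    rw [hMA, hMA, ← hinf]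
    exact_mod_cast card_sup_inf (hZ.A x) (hZ.A (x + t))
  have hle2 : ∀ t x, al t = 0 → M x * M (x + t) ≤ R t x := by
    intro t x ht
    rw [hprod]
    refine mul_le_mul_of_nonneg_right ?_ (Finset.sum_nonneg fun _ _ => ind_nonneg _)
    rw [← sum_ind_card]
    refine Finset.sum_le_sum fun m _ => ?_
    by_cases h : m ∈ hZ.A x ⊔ hZ.A (x + t)
    · rw [ind_true h, ind_true (hsub t x ht m h)]
    · rw [ind_false h]; exact ind_nonneg _
  have heq : ∀ t x, al t = 0 → al x = 0 → M x * M (x + t) = R t x := by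
    intro t x h1 h2
    rw [hprod]
    simp only [hR]
    congr 1
    rw [← sum_ind_card]
    refine Finset.sum_congr rfl fun m _ => ind_congr ⟨hsub t x h1 m, ?_⟩
    intro hw
    obtain ⟨a, h3, h4⟩ := ha t x m h1 h2 hw
    have h5 : m = a + (m + a) := by
      rw [add_comm m a, ← add_assoc, ZModModule.add_self, zero_add]
    rw [h5]
    exact Submodule.add_mem_sup h3 h4
  -- comparison
  have hcmp : ∀ t, al t = 0 → ∀ x, sg (al x) * R t x ≤ sg (al x) * (M x * M (x + t)) := by
    intro t ht x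
    rcases zm (al x) with h | h
    · rw [heq t x ht h]
    · rw [h]
      have : sg (1 : ZMod 2) = -1 := by decide
      rw [this]
      have := hle2 t x ht
      omega
  have hnn : ∀ t, al t = 0 → 0 ≤ ∑ x, sg (al x) * (M x * M (x + t)) := fun t ht =>
    ((hRC t).nonneg al).trans (Finset.sum_le_sum fun x _ => hcmp t ht x)
  have hz := sum_ker_fun hs
  rw [Finset.sum_eq_zero_iff_of_nonneg (fun t _ => by
    by_cases ht : al t = 0
    · rw [ind_true ht, one_mul]; exact hnn t ht
    · rw [ind_false ht, zero_mul])] at hz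
  have hfR : ∀ t, al t = 0 → ∀ x, M x * M (x + t) = R t x := by
    intro t ht x
    have h1 := hz t (Finset.mem_univ _)
    rw [ind_true ht, one_mul] at h1
    have h2 : ∑ x, (sg (al x) * (M x * M (x + t)) - sg (al x) * R t x) = 0 := by
      apply le_antisymm
      · rw [Finset.sum_sub_distrib, h1]
        have := (hRC t).nonneg al
        omega
      · exact Finset.sum_nonneg fun x _ => sub_nonneg.2 (hcmp t ht x)
    rw [Finset.sum_eq_zero_iff_of_nonneg (fun x _ => sub_nonneg.2 (hcmp t ht x))] at h2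
    have h3 := h2 x (Finset.mem_univ _)
    rcases zm (al x) with h | h
    · exact heq t x ht h
    · rw [h] at h3
      have : sg (1 : ZMod 2) = -1 := by decide
      rw [this] at h3
      omega
  have hCone : ∀ t, al t = 0 → Cone fun x => M x * M (x + t) := by
    intro t ht
    obtain ⟨J, i, W, h⟩ := hRC t
    exact ⟨J, i, W, fun x => by rw [← h x]; exact hfR t ht x⟩
  obtain ⟨x, h1, h2⟩ := exists_max hpos (by
    rw [hM0]
    exact_mod_cast Fintype.card_pos) hle (pow_sum hs hCone)
  refine ⟨x, h1, fun g => ?_⟩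
  by_contra hg
  have h3 : M x < M 0 := by
    refine Finset.sum_lt_sum (fun g _ => ?_) ⟨g, Finset.mem_univ _, ?_⟩
    · rw [ind_true (hZ.zl g)]
      exact ind_le_one' _
    · rw [ind_true (hZ.zl g), ind_false hg]
      exact zero_lt_one
  exact absurd h2 (ne_of_lt h3)

/-- **GP** (helper46, helper35, helper58) -/
theorem gp [Finite X] [Finite G] {b : X → G → B} (hb : Bi b) {al : D X}
    (ha : ∀ t x, al t = 0 → al x = 0 → ∀ m w, b x m = b t w →
      ∃ a, b x a = 0 ∧ b (x + t) (m + a) = 0)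
    (hc : ∀ g, ∃ x, al x = 1 ∧ b x g = 0) : ∃ x, al x = 1 ∧ ∀ g, b x g = 0 := by
  refine gp_set (Z := fun x g => b x g = 0) ⟨?_, ?_, hb.zl, hb.zr⟩ (fun t m => hb.P t m) ?_ ?_ hc
  · intro x x' g h h'
    rw [hb.left, h, h', add_zero]
  · intro x g g' h h'
    rw [hb.right, h, h', add_zero]
  · intro t x m a _ h1 h2
    refine ⟨m + a, ?_⟩
    have h3 := hb.two t (m + a)
    rw [hb.left] at h2
    have h4 : b x (m + a) = -b t (m + a) := eq_neg_of_add_eq_zero_left h2
    rw [hb.right, h1, add_zero] at h4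
    rw [h4]
    exact neg_eq_of_add_eq_zero_left h3
  · rintro t x m h1 h2 ⟨w, hw⟩
    exact ha t x h1 h2 m w hw

end Pool.Agent.ETAL
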