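import Pool.Agent.ETAL.ThmL

/-!
# TRANSFER THEOREM TT (helper41) and LEMMA M (helper19), helper24
-/

set_option autoImplicit false
set_option linter.unusedSectionVars false
set_option linter.unusedSimpArgs false

namespace Pool.Agent.ETAL

open Pool.Agent.Helper58.PLine (QData)
open Pool.Agent.ETCP
open ETC (ind ind_true ind_false ind_and ind_congr ind_nonneg ind_le sum_ind_shift add_common)

variable {V Q : Type} [AddCommGroup V] [Module (ZMod 2) V] {D : QData V Q}

/-- **LEMMA M** (helper19), relative version: `T ≤ H`, `M = m0 + T ⊂ H`, `N = r0 + H`; if every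
`n ∈ N` has `n m ∈ s K` for some `m ∈ M` then `s m ∈ s K` for some `m ∈ M`, that is
`m0 ∈ T + K`.  Here `K` is a subgroup containing `V_s`. -/
theorem lemM [Finite V] {s m0 r0 : V} {T H K : AddSubgroup V} (hK : ∀ v, C D s v → v ∈ K)
    (hKH : K ≤ H) (hT : T ≤ H) (hm : m0 ∈ H) (hs : s ∈ H)
    (h : ∀ n, n + r0 ∈ H → ∃ m, m + m0 ∈ T ∧ ∃ k ∈ K, D.q n m = D.q s k) :
    m0 ∈ T ⊔ K := by
  by_contra hcon
  refine count (D := D) (s := s) (m0 := m0) (n0 := r0) (J := T ⊔ K) (G := T)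
    (H := H) (fun v hv => AddSubgroup.mem_sup_right (hK v hv)) hcon ?_ ?_
  · intro n hn
    obtain ⟨m1, h1, k1, hk1, e1⟩ := h n hn
    have hn' : n + s + r0 ∈ H := by
      have := H.add_mem hn hs
      have e : n + r0 + s = n + s + r0 := by abel
      rwa [e] at this
    obtain ⟨m2, h2, k2, hk2, e2⟩ := h (n + s) hn'
    refine ⟨m1 + m2, ?_, m2 + (k1 + k2), ?_, ?_⟩
    · have := T.add_mem h1 h2
      have e : m1 + m0 + (m2 + m0) = m1 + m2 + (m0 + m0) := by abel
      rwa [e, ZModModule.add_self, add_zero] at this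
    · have e : m2 + (k1 + k2) + m0 = m2 + m0 + (k1 + k2) := by abel
      rw [e]
      exact (T ⊔ K).add_mem (AddSubgroup.mem_sup_left h2)
        (AddSubgroup.mem_sup_right (K.add_mem hk1 hk2))
    · -- `n m2 = s (k2 + m2)`
      have e3 : D.q n m2 = D.q s (k2 + m2) := by
        have := addl e2 (rfl : D.q s m2 = D.q s m2)
        rwa [s2] at this
      have e4 := addr e1 e3
      rw [q_symm, e4]
      congr 1
      abel
  · intro g hg n hn v hv e
    obtain ⟨u, c1, c2, c3⟩ := lk e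
    refine ⟨n + u, ?_, c1⟩
    have h1 : v + m0 ∈ H := by
      have : T ⊔ K ≤ H := sup_le hT hKH
      exact this hv
    have h2 : v ∈ H := memc hm h1
    have h3 : v + u ∈ H := hKH (hK _ c2)
    have h4 : u ∈ H := memc h2 (by rwa [add_comm])
    have := H.add_mem hn h4
    have e : n + r0 + u = n + u + r0 := by abel
    rwa [e] at this

/-- **TT** (helper41) -/
theorem tt [Finite V] {s r0 : V} {H : AddSubgroup V} {f : V →ₗ[ZMod 2] ZMod 2}
    (hsH : ∀ v, C D s v → v ∈ H) (hs : s ∈ H) (hf : ∀ v, C D s v → f v = 0)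
    (hne : ∃ v ∈ H, f v = 1) : ∃ n, n + r0 ∈ H ∧ ∀ v ∈ H, C D n v → f v = 0 := by
  by_contra hcon
  push Not at hcon
  obtain ⟨m0, hm0, fm0⟩ := hne
  have h1 := lemM (D := D) (s := s) (m0 := m0) (r0 := r0) (T := cut f H) (H := H)
    (K := ann D s) (fun v hv => hv) hsH (fun v hv => hv.1) hm0 hs (by
      intro n hn
      obtain ⟨m, h1, h2, h3⟩ := hcon n hn
      refine ⟨m, ⟨H.add_mem h1 hm0, ?_⟩, 0, (ann D s).zero_mem, by rw [q0]; exact h2⟩
      rw [map_add, Pool.Agent.Helper58.PLine.zm_ne_zero h3, fm0, z11])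
  obtain ⟨a, ha, b, hb, e⟩ := AddSubgroup.mem_sup.1 h1
  rw [← e, map_add, ha.2, hf b hb, add_zero] at fm0
  exact absurd fm0 (by decide)

end Pool.Agent.ETAL
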