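import Pool.Agent.ETAL.XStar

/-!
# THEOREM L (helper25), the `K`-free form of THEOREM X* (helper24)

`t` balanced at `y` with kind `L`, `V_w ≤ L`:
`L = <t> + V_y + V_w + {v ∈ L : y v ∈ Q_{t+w}}`.
-/

set_option autoImplicit false
set_option linter.unusedSectionVars false
set_option linter.unusedSimpArgs false

namespace Pool.Agent.ETAL

open Pool.Agent.Helper58.PLine (QData)
open Pool.Agent.ETCP
open ETC (ind ind_true ind_false ind_and ind_congr ind_nonneg ind_le sum_ind_shift add_common)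

variable {V Q : Type} [AddCommGroup V] [Module (ZMod 2) V] {D : QData V Q}

/-- the subgroup `V_w` -/
def ann (D : QData V Q) (w : V) : AddSubgroup V where
  carrier := {v | C D w v}
  zero_mem' := C.zero w
  add_mem' := fun h h' => C.add h h'
  neg_mem' := by
    intro a ha
    have : -a = a := neg_eq_of_add_eq_zero_left (ZModModule.add_self a)
    rwa [this]

theorem mem_ann {w v : V} : v ∈ ann D w ↔ C D w v := Iff.rfl

/-- **THEOREM L** (helper25) -/
theorem thmL [Finite V] {y t w : V} {L : AddSubgroup V} (he : D.e = 0)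
    (Bt : Bal D y t L) (Bt' : Bal D y (t + y) L) (hw : ∀ v, C D w v → v ∈ L)
    {f : V →ₗ[ZMod 2] ZMod 2} (ft : f t = 0) (fy : ∀ v, C D y v → f v = 0)
    (fw : ∀ v, C D w v → f v = 0)
    (ftw : ∀ v ∈ L, (∃ r, D.q y v = D.q (t + w) r) → f v = 0) :
    ∀ v ∈ L, f v = 0 := by
  intro l0 hl0
  by_contra hf
  have f1 : f l0 = 1 := Pool.Agent.Helper58.PLine.zm_ne_zero hf
  have hyy : C D y y := C.self he y
  have htL : t ∈ L := Bt.sup t y (q_symm _ _)
  have hwL : w ∈ L := hw w (C.self he w)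
  have hfw : f w = 0 := fw w (C.self he w)
  have hfy : f y = 0 := fy y hyy
  -- m0
  obtain ⟨r, e1⟩ := Bt.sub l0 hl0
  obtain ⟨r', e1'⟩ := Bt'.sub l0 hl0
  obtain ⟨m0, c1, c2, c3⟩ := lk (e1.symm.trans e1')
  have c4 : C D y m0 := by rwa [s3] at c3
  have e2 : D.q t m0 = D.q y l0 := by
    rw [e1]; exact mv (by rwa [add_comm])
  have hm0c : m0 ∈ cut f L := ⟨Bt.Vy c4, fy m0 c4⟩
  have hM0 : MM D y t f L m0 := ⟨hm0c, l0, hl0, f1, e2⟩
  have cutw : ∀ {v}, C D w v → v ∈ cut f L := fun {v} hv => ⟨hw v hv, fw v hv⟩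
  refine count (D := D) (s := w) (m0 := m0) (n0 := l0) (J := TT D y t f L ⊔ ann D w)
    (G := TT D y t f L) (H := cut f L) ?_ ?_ ?_ ?_
  · intro v hv
    exact AddSubgroup.mem_sup_right hv
  · intro hmem
    obtain ⟨g, hg, w1, hw1, e4⟩ := AddSubgroup.mem_sup.1 hmem
    obtain ⟨h1, l, h2, h3, h4⟩ := hM0.addT hg
    have hw1' : w1 = m0 + g := by
      rw [← e4, add_comm g w1, s2]
    have hc : C D w (m0 + g) := by rw [← hw1']; exact hw1
    have e5 : D.q (t + w) (m0 + g) = D.q t (m0 + g) := by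
      apply q_eq'
      rw [add_comm t w, s2]
      exact hc
    have := ftw l h2 ⟨m0 + g, (e5.trans h4).symm⟩
    rw [this] at h3
    exact absurd h3 (by decide)
  · intro n hn
    have hnL : n ∈ L := memc hl0 hn.1
    have hfn : f n = 1 := by
      have := hn.2
      rw [map_add, f1] at this
      rcases Pool.Agent.Helper58.PLine.zm (f n) with h | h
      · rw [h] at this; exact absurd this (by decide)
      · exact h
    obtain ⟨m1, hM1, k1⟩ := killM hyy Bt Bt' htL ft hfy hnL hfn
    obtain ⟨m2, hM2, k2⟩ := killM (n := n + w) hyy Bt Bt' htL ft hfy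
      (L.add_mem hnL hwL) (by rw [map_add, hfn, hfw, add_zero])
    refine ⟨m1 + m2, hM1.add hM2, m2, AddSubgroup.mem_sup_left (hM2.add hM0), ?_⟩
    have e7 : D.q (m1 + m2) n = D.q m2 n := by
      apply q_eq'
      rw [s2]
      exact k1.symm
    rw [e7, q_symm]
    exact q_eq' k2
  · intro g hg n hn v hv e3
    obtain ⟨u, c5, c6, c7⟩ := lk e3
    obtain ⟨g', hg', w1, hw1, e5⟩ := AddSubgroup.mem_sup.1 hv
    have hw1' : w1 = v + m0 + g' := by
      rw [← e5, add_comm g' w1, s2]
    have e6 : C D w (u + m0 + g') := by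
      have h := (mem_ann.1 hw1).add c6
      rw [hw1'] at h
      have h7 : v + m0 + g' + (v + u) = u + m0 + g' := by
        have : v + m0 + g' + (v + u) = u + m0 + g' + (v + v) := by abel
        rw [this, ZModModule.add_self, add_zero]
      rwa [h7] at h
    have hu : u ∈ cut f L := memc hm0c (memc (mem_TT.1 hg').1 (cutw e6))
    refine ⟨n + u, ?_, c5⟩
    have := (cut f L).add_mem hn hu
    have h3 : n + l0 + u = n + u + l0 := by abel
    rwa [h3] at this

end Pool.Agent.ETAL
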