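import Pool.Agent.ETAL.Beta

/-!
# THEOREM X* (helper25): comparable balanced kinds are equal (helper24)

`E_s = E_{s+y} = K`, `E_t = E_{t+y} = L`, `y t ∈ K`, `K ≤ L` imply `K = L`.
-/

set_option autoImplicit false
set_option linter.unusedSectionVars false
set_option linter.unusedSimpArgs false

namespace Pool.Agent.ETAL

open Pool.Agent.Helper58.PLine (QData)
open Pool.Agent.ETCP
open ETC (ind ind_true ind_false ind_and ind_congr ind_nonneg ind_le sum_ind_shift add_common)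

variable {V Q : Type} [AddCommGroup V] [Module (ZMod 2) V] {D : QData V Q}

/-- a functional cutting `L` and vanishing on `K` -/
theorem exists_cut {K : AddSubgroup V} {l : V} (hl : l ∉ K) :
    ∃ f : V →ₗ[ZMod 2] ZMod 2, f l = 1 ∧ ∀ v ∈ K, f v = 0 := by
  obtain ⟨f, h1, h2⟩ := Pool.Agent.Helper58.PLine.exists_functional
    (p := AddSubgroup.toZModSubmodule 2 K) (x := l) (by simpa using hl)
  exact ⟨f, h1, fun v hv => h2 v (by simpa using hv)⟩

/-- `{v ∈ L : f v = 0}` -/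
def cut (f : V →ₗ[ZMod 2] ZMod 2) (L : AddSubgroup V) : AddSubgroup V where
  carrier := {v | v ∈ L ∧ f v = 0}
  zero_mem' := ⟨L.zero_mem, map_zero f⟩
  add_mem' := by
    rintro a b ⟨h1, h2⟩ ⟨h3, h4⟩
    exact ⟨L.add_mem h1 h3, by rw [map_add, h2, h4, add_zero]⟩
  neg_mem' := by
    rintro a ⟨h1, h2⟩
    exact ⟨L.neg_mem h1, by rw [map_neg, h2, neg_zero]⟩

theorem mem_cut {f : V →ₗ[ZMod 2] ZMod 2} {L : AddSubgroup V} {v : V} :
    v ∈ cut f L ↔ v ∈ L ∧ f v = 0 := Iff.rfl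

theorem z11 : (1 : ZMod 2) + 1 = 0 := by decide

/-- the coset `M` -/
def MM (D : QData V Q) (y t : V) (f : V →ₗ[ZMod 2] ZMod 2) (L : AddSubgroup V) (m : V) : Prop :=
  m ∈ cut f L ∧ ∃ l ∈ L, f l = 1 ∧ D.q t m = D.q y l

/-- the subgroup `T0` -/
def TT (D : QData V Q) (y t : V) (f : V →ₗ[ZMod 2] ZMod 2) (L : AddSubgroup V) : AddSubgroup V :=
  cut f L ⊓ pull D t y (cut f L)

theorem mem_TT {y t g : V} {f : V →ₗ[ZMod 2] ZMod 2} {L : AddSubgroup V} :
    g ∈ TT D y t f L ↔ g ∈ cut f L ∧ ∃ h ∈ cut f L, D.q t g = D.q y h := Iff.rfl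

theorem MM.add {y t m m' : V} {f : V →ₗ[ZMod 2] ZMod 2} {L : AddSubgroup V}
    (h : MM D y t f L m) (h' : MM D y t f L m') : m + m' ∈ TT D y t f L := by
  obtain ⟨h1, l, h2, h3, h4⟩ := h
  obtain ⟨h1', l', h2', h3', h4'⟩ := h'
  refine mem_TT.2 ⟨(cut f L).add_mem h1 h1', l + l', ⟨L.add_mem h2 h2', ?_⟩, addr h4 h4'⟩
  rw [map_add, h3, h3', z11]

theorem MM.addT {y t m g : V} {f : V →ₗ[ZMod 2] ZMod 2} {L : AddSubgroup V}
    (h : MM D y t f L m) (h' : g ∈ TT D y t f L) : MM D y t f L (m + g) := by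
  obtain ⟨h1, l, h2, h3, h4⟩ := h
  obtain ⟨h1', l', h2', h4'⟩ := mem_TT.1 h'
  refine ⟨(cut f L).add_mem h1 h1', l + l', L.add_mem h2 h2'.1, ?_, addr h4 h4'⟩
  rw [map_add, h3, h2'.2, add_zero]

/-- step (a): every `n ∈ N'` is killed by an element of `M` -/
theorem killM {y t n : V} {f : V →ₗ[ZMod 2] ZMod 2} {L : AddSubgroup V} (hy : C D y y)
    (Bt : Bal D y t L) (Bt' : Bal D y (t + y) L) (ht : t ∈ L) (hft : f t = 0) (hfy : f y = 0)
    (hn : n ∈ L) (hfn : f n = 1) : ∃ m, MM D y t f L m ∧ C D n m := by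
  have hyL : y ∈ L := Bt.Vy hy
  have Bt'' : Bal D y (t + y + y) L := by rwa [s2]
  have ety : D.q t y = D.q y t := q_symm _ _
  -- z1
  obtain ⟨w, e1⟩ := Bt.sub n hn
  obtain ⟨u, c1, c2, c3⟩ := lk (show D.q n y = D.q t w by rw [q_symm]; exact e1)
  have e2 : D.q t u = D.q y n := by
    rw [e1]; exact mv (by rwa [add_comm])
  have hu : u ∈ L := Bt.zero Bt' hn e2
  rcases Pool.Agent.Helper58.PLine.zm (f u) with fu | fu
  · refine ⟨u + y, ⟨⟨L.add_mem hu hyL, by rw [map_add, fu, hfy, add_zero]⟩, n + t,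
      L.add_mem hn ht, by rw [map_add, hfn, hft, add_zero], addr e2 ety⟩, ?_⟩
    rwa [add_comm]
  · -- z4
    obtain ⟨w', e1'⟩ := Bt'.sub n hn
    obtain ⟨u4, c1', c2', c3'⟩ := lk (show D.q n y = D.q (t + y) w' by rw [q_symm]; exact e1')
    have e2' : D.q (t + y) u4 = D.q y n := by
      rw [e1']; exact mv (by rwa [add_comm u4 w'])
    have hu4 : u4 ∈ L := Bt'.zero Bt'' hn e2'
    have e3 : D.q t u4 = D.q y (n + u4) := by
      have := addl e2' (rfl : D.q y u4 = D.q y u4)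
      rwa [s2] at this
    rcases Pool.Agent.Helper58.PLine.zm (f u4) with fu4 | fu4
    · refine ⟨u4 + y, ⟨⟨L.add_mem hu4 hyL, by rw [map_add, fu4, hfy, add_zero]⟩, n + u4 + t,
        L.add_mem (L.add_mem hn hu4) ht, by rw [map_add, map_add, hfn, hft, fu4]; simp,
        addr e3 ety⟩, ?_⟩
      rwa [add_comm]
    · refine ⟨u + u4, ⟨⟨L.add_mem hu hu4, by rw [map_add, fu, fu4, z11]⟩, u4, hu4, fu4, ?_⟩, ?_⟩
      · have := addr e2 e3
        rwa [s3] at this
      · have := c1.add c1'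
        have h5 : y + u + (y + u4) = u + u4 := by
          have : y + u + (y + u4) = u + u4 + (y + y) := by abel
          rw [this, ZModModule.add_self, add_zero]
        rwa [h5] at this

/-- **THEOREM X*** (helper25). -/
theorem xstar [Finite V] {y s t : V} {K L : AddSubgroup V} (hy : C D y y) (Bs : Bal D y s K)
    (Bs' : Bal D y (s + y) K) (Bt : Bal D y t L) (Bt' : Bal D y (t + y) L) (ht : t ∈ K)
    (hKL : K ≤ L) : K = L := by
  by_contra hne
  obtain ⟨l0, hl0, hl0'⟩ : ∃ l, l ∈ L ∧ l ∉ K := by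
    by_contra hcon
    push Not at hcon
    exact hne (le_antisymm hKL hcon)
  obtain ⟨f, f1, fK⟩ := exists_cut hl0'
  have hsK : s ∈ K := Bs.sup s y (q_symm _ _)
  have hyK : y ∈ K := Bs.Vy hy
  have hfull : Full D y t K := fun v hv => Bt.sub v (hKL hv)
  have cutK : ∀ {v}, v ∈ K → v ∈ cut f L := fun {v} hv => ⟨hKL hv, fK v hv⟩
  -- m0
  obtain ⟨w, e1⟩ := Bt.sub l0 hl0
  obtain ⟨w', e1'⟩ := Bt'.sub l0 hl0
  obtain ⟨m0, c1, c2, c3⟩ := lk (e1.symm.trans e1')
  have c4 : C D y m0 := by rwa [s3] at c3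
  have hm0K : m0 ∈ K := Bs.Vy c4
  have e2 : D.q t m0 = D.q y l0 := by
    rw [e1]; exact mv (by rwa [add_comm])
  have hM0 : MM D y t f L m0 := ⟨cutK hm0K, l0, hl0, f1, e2⟩
  set J : AddSubgroup V := TT D y t f L ⊔ pull D s y K with hJdef
  refine count (D := D) (s := s) (m0 := m0) (n0 := l0) (J := J) (G := TT D y t f L)
    (H := cut f L) ?_ ?_ ?_ ?_
  · intro v hv
    exact AddSubgroup.mem_sup_right ⟨0, K.zero_mem, by rw [q0]; exact hv⟩
  · intro hmem
    obtain ⟨g, hg, w1, ⟨k, hk, e3⟩, e4⟩ := AddSubgroup.mem_sup.1 hmem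
    obtain ⟨h1, l, h2, h3, h4⟩ := hM0.addT hg
    have hw1 : w1 = m0 + g := by
      rw [← e4, add_comm g w1, s2]
    have e5 : D.q s (m0 + g) = D.q y k := by rw [← hw1]; exact e3
    obtain ⟨w2, e6⟩ := Bt.sub (k + l) (L.add_mem (hKL hk) h2)
    have h7 : k + l ∈ K := corT Bs Bs' ht hfull e6 (w' := m0 + g) (addl e5 h4).symm
    have h8 : l ∈ K := memc hk (by rwa [add_comm])
    rw [fK l h8] at h3
    exact absurd h3 (by decide)
  · intro n hn
    have hnL : n ∈ L := memc hl0 hn.1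
    have hfn : f n = 1 := by
      have := hn.2
      rw [map_add, f1] at this
      rcases Pool.Agent.Helper58.PLine.zm (f n) with h | h
      · rw [h] at this; exact absurd this (by decide)
      · exact h
    obtain ⟨m1, hM1, k1⟩ := killM hy Bt Bt' (hKL ht) (fK t ht) (fK y hyK) hnL hfn
    obtain ⟨m2, hM2, k2⟩ := killM (n := n + s) hy Bt Bt' (hKL ht) (fK t ht) (fK y hyK)
      (L.add_mem hnL (hKL hsK)) (by rw [map_add, hfn, fK s hsK, add_zero])
    refine ⟨m1 + m2, hM1.add hM2, m2, AddSubgroup.mem_sup_left (hM2.add hM0), ?_⟩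
    have e7 : D.q (m1 + m2) n = D.q m2 n := by
      apply q_eq'
      rw [s2]
      exact k1.symm
    rw [e7, q_symm]
    exact q_eq' k2
  · intro g hg n hn v hv e3
    obtain ⟨u, c5, c6, c7⟩ := lk e3
    obtain ⟨g', hg', w1, ⟨k, hk, e4⟩, e5⟩ := AddSubgroup.mem_sup.1 hv
    have hw1 : w1 = v + m0 + g' := by
      rw [← e5, add_comm g' w1, s2]
    have e6 : D.q s (u + m0 + g') = D.q y k := by
      rw [← e4]
      apply mv
      rw [hw1]
      have : u + m0 + g' + (v + m0 + g') = v + u := by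
        have : u + m0 + g' + (v + m0 + g') = v + u + (m0 + m0) + (g' + g') := by abel
        rw [this, ZModModule.add_self, ZModModule.add_self, add_zero, add_zero]
      rwa [this]
    have h9 : u + m0 + g' ∈ cut f L := cutK (Bs.zero Bs' hk e6)
    have hu : u ∈ cut f L := memc (cutK hm0K) (memc (mem_TT.1 hg').1 h9)
    refine ⟨n + u, ?_, c5⟩
    have := (cut f L).add_mem hn hu
    have h3 : n + l0 + u = n + u + l0 := by abel
    rwa [h3] at this

end Pool.Agent.ETAL
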